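import Mathlib
import Pool.Agent.H.MP_edcda5_an.A

namespace Pool.Agent.Results.MP_edcda5_an.Yes

open MeasureTheory
open scoped ENNReal

/-- The axis-parallel cube with lower corner `a` and side length `h`. -/
def cube {d : ℕ} (a : Fin d → ℝ) (h : ℝ) : Set (Fin d → ℝ) := Set.Icc a (fun i => a i + h)

/-- The average of a nonnegative function over a cube, with values in `[0, ∞]`. -/
noncomputable def avg {d : ℕ} (f : (Fin d → ℝ) → ℝ) (a : Fin d → ℝ) (h : ℝ) : ℝ≥0∞ :=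
  (∫⁻ x in cube a h, ENNReal.ofReal (f x)) / volume (cube a h)

/-- The reverse Hölder constant. -/
noncomputable def RH {d : ℕ} (p : ℝ) (w : (Fin d → ℝ) → ℝ) : ℝ≥0∞ :=
  ⨆ (a : Fin d → ℝ) (h : ℝ) (_ : 0 < h), avg (fun x => w x ^ p) a h ^ (1 / p) / avg w a h

theorem result (d : ℕ) (p : ℝ) (hp : 1 < p) : ∃ c : ℝ, 0 < c ∧
    ∀ w : (Fin d → ℝ) → ℝ, LocallyIntegrable w → (∀ x, 0 < w x) → RH p w ≠ ⊤ →
      ∀ (a : Fin d → ℝ) (h : ℝ), 0 < h → ∀ ε : ℝ, 0 < ε → ε ≤ c * (RH p w).toReal ^ (-p) →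
        avg (fun x => w x ^ (p + ε)) a h ≤ 2 * RH p w ^ (p + ε) * avg w a h ^ (p + ε) :=
  Pool.Agent.H.MP_edcda5_an.main d p hp

end Pool.Agent.Results.MP_edcda5_an.Yes
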